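import Pool.Agent.H58.SF.Targets

/-!
# Composition of pp-constructions
-/

set_option autoImplicit false

namespace Pool.Agent.H51.SF

open Pool.Agent.H68.BP Pool.Agent.H58.SF

variable {σ τ : Sig} {A : Type}

/-- Renaming of the variables of an atomic formula. -/
def amap {X Y : Type} (f : X → Y) : Atom σ X → Atom σ Y
  | .eq x y => .eq (f x) (f y)
  | .rel l t => .rel l (fun i => f (t i))

lemma holds_amap (𝔸 : Str σ A) {X Y : Type} (f : X → Y) (v : Y → A) (a : Atom σ X) :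
    (amap f a).Holds 𝔸 v ↔ a.Holds 𝔸 (fun x => v (f x)) := by
  cases a <;> exact Iff.rfl

/-- Definability with an arbitrary finite set of bound variables. -/
def PPD (𝔸 : Str σ A) {I : Type} (S : Set (I → A)) : Prop :=
  ∃ (Q : Type) (_ : Finite Q) (φ : List (Atom σ (I ⊕ Q))),
    ∀ x : I → A, x ∈ S ↔ ∃ y : Q → A, ∀ a ∈ φ, a.Holds 𝔸 (Sum.elim x y)

lemma PPD.of (𝔸 : Str σ A) {I : Type} {S : Set (I → A)} (h : PPDefinable 𝔸 S) : PPD 𝔸 S := by
  obtain ⟨q, φ, h⟩ := h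
  exact ⟨Fin q, inferInstance, φ, h⟩

lemma forall_map {α β : Type} (l : List α) (g : α → β) (p : β → Prop) :
    (∀ b ∈ l.map g, p b) ↔ ∀ a ∈ l, p (g a) := by
  simp

lemma PPD.to {𝔸 : Str σ A} {I : Type} {S : Set (I → A)} (h : PPD 𝔸 S) : PPDefinable 𝔸 S := by
  obtain ⟨Q, hQ, φ, h⟩ := h
  obtain ⟨q, ⟨e⟩⟩ := Finite.exists_equiv_fin Q
  refine ⟨q, φ.map (amap (Sum.map id e)), fun x => ?_⟩
  rw [h x]
  simp only [forall_map, holds_amap]
  constructor
  · rintro ⟨y, hy⟩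
    refine ⟨fun i => y (e.symm i), fun a ha => ?_⟩
    have := hy a ha
    convert this using 1
    funext z
    rcases z with z | z
    · rfl
    · simp
  · rintro ⟨y, hy⟩
    refine ⟨fun i => y (e i), fun a ha => ?_⟩
    have := hy a ha
    convert this using 1
    funext z
    rcases z with z | z <;> rfl

lemma PPD.univ (𝔸 : Str σ A) {I : Type} [Nonempty A] : PPD 𝔸 (Set.univ : Set (I → A)) :=
  ⟨Empty, inferInstance, [], fun x => ⟨fun _ => ⟨fun e => e.elim, by simp⟩, fun _ => trivial⟩⟩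

lemma PPD.inter {𝔸 : Str σ A} {I : Type} {S T : Set (I → A)} (hS : PPD 𝔸 S) (hT : PPD 𝔸 T) :
    PPD 𝔸 (S ∩ T) := by
  obtain ⟨Q, hQ, φ, h⟩ := hS
  obtain ⟨R, hR, ψ, h'⟩ := hT
  refine ⟨Q ⊕ R, inferInstance, φ.map (amap (Sum.map id Sum.inl)) ++
    ψ.map (amap (Sum.map id Sum.inr)), fun x => ?_⟩
  rw [Set.mem_inter_iff, h, h']
  simp only [List.forall_mem_append, forall_map, holds_amap]
  have e1 : ∀ y : Q ⊕ R → A, (fun z => Sum.elim x y (Sum.map id Sum.inl z)) =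
      Sum.elim x (fun q => y (Sum.inl q)) := by
    intro y; funext z; rcases z with z | z <;> rfl
  have e2 : ∀ y : Q ⊕ R → A, (fun z => Sum.elim x y (Sum.map id Sum.inr z)) =
      Sum.elim x (fun q => y (Sum.inr q)) := by
    intro y; funext z; rcases z with z | z <;> rfl
  constructor
  · rintro ⟨⟨y, hy⟩, ⟨z, hz⟩⟩
    refine ⟨Sum.elim y z, ?_, ?_⟩
    · rw [e1]; exact hy
    · rw [e2]; exact hz
  · rintro ⟨y, h1, h2⟩
    rw [e1] at h1
    rw [e2] at h2
    exact ⟨⟨_, h1⟩, ⟨_, h2⟩⟩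

lemma PPD.comap {𝔸 : Str σ A} {I J : Type} {S : Set (I → A)} (f : I → J) (hS : PPD 𝔸 S) :
    PPD 𝔸 {z : J → A | (fun i => z (f i)) ∈ S} := by
  obtain ⟨Q, hQ, φ, h⟩ := hS
  refine ⟨Q, hQ, φ.map (amap (Sum.map f id)), fun x => ?_⟩
  rw [Set.mem_ofPred_eq, h]
  simp only [forall_map, holds_amap]
  refine exists_congr fun y => ?_
  have e1 : (fun z => Sum.elim x y (Sum.map f id z)) = Sum.elim (fun i => x (f i)) y := by
    funext z; rcases z with z | z <;> rfl
  rw [e1]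

lemma PPD.exists {𝔸 : Str σ A} {I K : Type} [Finite K] {S : Set (I ⊕ K → A)} (hS : PPD 𝔸 S) :
    PPD 𝔸 {x : I → A | ∃ k : K → A, Sum.elim x k ∈ S} := by
  obtain ⟨Q, hQ, φ, h⟩ := hS
  refine ⟨K ⊕ Q, inferInstance, φ.map (amap (Equiv.sumAssoc I K Q)), fun x => ?_⟩
  simp only [Set.mem_ofPred_eq, h, forall_map, holds_amap]
  have e1 : ∀ (k : K → A) (y : Q → A), (fun z => Sum.elim x (Sum.elim k y)
      (Equiv.sumAssoc I K Q z)) = Sum.elim (Sum.elim x k) y := by
    intro k y; funext z; rcases z with (z | z) | z <;> rfl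
  constructor
  · rintro ⟨k, y, hy⟩
    refine ⟨Sum.elim k y, ?_⟩
    rw [e1]; exact hy
  · rintro ⟨y, hy⟩
    refine ⟨fun k => y (Sum.inl k), fun q => y (Sum.inr q), ?_⟩
    rw [← e1]
    have : Sum.elim (fun k => y (Sum.inl k)) (fun q => y (Sum.inr q)) = y := by
      funext z; rcases z with z | z <;> rfl
    rw [this]
    exact hy

lemma PPD.eqs (𝔸 : Str σ A) {X : Type} {n : ℕ} (x y : X) :
    PPD 𝔸 {v : X × Fin n → A | (fun j => v (x, j)) = fun j => v (y, j)} := by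
  refine ⟨Empty, inferInstance,
    List.ofFn (fun j : Fin n => Atom.eq (Sum.inl (x, j)) (Sum.inl (y, j))), fun v => ?_⟩
  rw [Set.mem_ofPred_eq, funext_iff]
  constructor
  · intro h
    refine ⟨fun e => e.elim, fun a ha => ?_⟩
    obtain ⟨j, rfl⟩ := (List.mem_ofFn' _ _).1 ha
    exact h j
  · rintro ⟨_, h⟩ j
    exact h _ ((List.mem_ofFn' _ _).2 ⟨j, rfl⟩)

theorem power_list {𝔸 : Str σ A} {n : ℕ} {ℙ : Str τ (Fin n → A)} (hP : PPPower 𝔸 n ℙ)
    {X : Type} (l : List (Atom τ X)) :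
    PPD 𝔸 {v : X × Fin n → A | ∀ a ∈ l, a.Holds ℙ (fun x j => v (x, j))} := by
  induction l with
  | nil =>
    exact ⟨Empty, inferInstance, [], fun x => ⟨fun _ => ⟨fun e => e.elim, by simp⟩,
      fun _ => by simp⟩⟩
  | cons a l ih =>
    have h1 : PPD 𝔸 {v : X × Fin n → A | a.Holds ℙ (fun x j => v (x, j))} := by
      cases a with
      | eq x y => exact PPD.eqs 𝔸 x y
      | rel R t => exact PPD.comap (fun p : _ × Fin n => (t p.1, p.2)) (PPD.of 𝔸 (hP R))
    convert h1.inter ih using 1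
    ext v
    simp only [List.mem_cons, Set.mem_ofPred_eq, Set.mem_inter_iff, forall_eq_or_imp]

theorem pf_TR : T_TR := by
  intro σ τ A 𝔸 n ℙ hn hP hK
  obtain ⟨m, E, hm, ⟨q, φ, hφ⟩, ⟨t, ht⟩, ⟨c, hc⟩⟩ := hK
  refine ⟨m * n, fun u v => E (fun j i => u (finProdFinEquiv (j, i)))
    (fun j i => v (finProdFinEquiv (j, i))), Nat.mul_pos hm hn, PPD.to ?_, ?_, ?_⟩
  · have h3 := power_list hP φ
    have h4 := PPD.comap (J := (Fin (m * n) ⊕ Fin (m * n)) ⊕ (Fin q × Fin n))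
      (fun p : ((Fin m ⊕ Fin m) ⊕ Fin q) × Fin n =>
        Sum.elim (Sum.elim (fun j => (Sum.inl (Sum.inl (finProdFinEquiv (j, p.2))) :
            (Fin (m * n) ⊕ Fin (m * n)) ⊕ (Fin q × Fin n)))
          (fun j => Sum.inl (Sum.inr (finProdFinEquiv (j, p.2)))))
          (fun r => Sum.inr (r, p.2)) p.1) h3
    have h5 := PPD.exists h4
    convert h5 using 1
    ext z
    have h6 := hφ (Sum.elim (fun j i => z (Sum.inl (finProdFinEquiv (j, i))))
      (fun j i => z (Sum.inr (finProdFinEquiv (j, i)))))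
    simp only [Set.mem_ofPred_eq, Sum.elim_inl, Sum.elim_inr] at h6 ⊢
    rw [h6]
    constructor
    · rintro ⟨y, hy⟩
      refine ⟨fun p => y p.1 p.2, fun a ha => ?_⟩
      convert hy a ha using 1
      funext p j
      rcases p with (p | p) | p <;> rfl
    · rintro ⟨y, hy⟩
      refine ⟨fun r j => y (r, j), fun a ha => ?_⟩
      convert hy a ha using 1
      funext p j
      rcases p with (p | p) | p <;> rfl
  · refine ⟨fun a k => t a (finProdFinEquiv.symm k).1 (finProdFinEquiv.symm k).2,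
      fun a b hab => ?_⟩
    simp only [Equiv.symm_apply_apply]
    exact ht a b hab
  · exact ⟨fun u => c (fun j i => u (finProdFinEquiv (j, i))), fun u v huv => hc _ _ huv⟩

end Pool.Agent.H51.SF
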