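import Pool.Agent.H45.SF.UT

/-!
# MP_3b3fc8_lc: the limit is an object (UL)
-/

open Ordinal Cardinal Order Set
open scoped ZFSet

set_option autoImplicit false

namespace SF

namespace ULx

theorem bmor_ext {A C : BA} {h k : BMor A C} (hk : ∀ x, h x = k x) : h = k := by
  rcases h with ⟨⟨h, h1, h2⟩, h3⟩
  rcases k with ⟨⟨k, k1, k2⟩, k3⟩
  have : h = k := funext hk
  subst this
  rfl

theorem toZFSet_mem {κ a : Ordinal.{0}} : a.toZFSet ∈ V_ κ ↔ a < κ := by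
  rw [ZFSet.mem_vonNeumann, Ordinal.rank_toZFSet]

/-- `κ` is closed under addition -/
theorem add_lt {κ : Ordinal.{0}} (hκ : Inac κ) (hUV : T_UV) (a : Ordinal.{0}) (ha : a < κ) :
    ∀ b : Ordinal.{0}, b < κ → a + b < κ := by
  obtain ⟨-, -, -, -, -, -, -, -, -, -, u11, -⟩ := hUV κ hκ
  intro b
  induction b using WellFoundedLT.induction with
  | _ b ih =>
    intro hb
    obtain ⟨γ, hγ, h1⟩ := u11 (Set.Iio b) (fun ξ => ξ.1.toZFSet) (fun ξ => a + ξ.1)
      (fun x y h => Subtype.ext (Ordinal.toZFSet_injective h)) b.toZFSet (toZFSet_mem.2 hb)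
      (fun ξ => by
        rw [Ordinal.mem_toZFSet_iff]
        exact ⟨ξ.1, ξ.2, rfl⟩)
      (fun ξ => ih ξ.1 ξ.2 (lt_trans ξ.2 hb))
    by_cases h0 : b = 0
    · subst h0
      rwa [add_zero]
    · refine lt_of_le_of_lt ?_ (hκ.lim.succ_lt hγ)
      rw [Ordinal.add_le_iff h0]
      intro d hd
      exact lt_succ_of_le (h1 ⟨d, hd⟩)

section

variable {κ : Ordinal.{0}} {Z : BA} {i : ∀ v : Obj, BMor v.A Z} {N' N w p' p G' u0 : V}

theorem inf_eq {A C : BA} (h : BMor A C) (x y : El A.B) : h (x ⊓ y) = h x ⊓ h y := h.inf x y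

theorem mono (hMB : T_MB) {A C : BA} (h : BMor A C) {x y : El A.B} (hxy : x ≤ y) : h x ≤ h y :=
  (hMB _ _ h.toMor).1 x y hxy

theorem bot_eq (hMB : T_MB) {A C : BA} (h : BMor A C) : h ⊥ = ⊥ :=
  (hMB _ _ h.toMor).2.1

/-- the value of the morphism of `t` at the element of its condition -/
theorem iota_x (hMB : T_MB) (hUA : T_UA) {K : Kn κ i N' N w p' p G' u0} {m : ℕ}
    (T : Stg K m) {t : El T.A.B} (ht : t ∈ T.S) : T.ι t (T.c t).x = t := by
  have htop := T.top t ht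
  refine le_antisymm ?_ ?_
  · exact (mono hMB (T.ι t) le_top).trans_eq htop
  · have hne : (⊤ : El T.A.B) ≠ ⊥ := by
      intro h0
      apply T.ne t ht
      exact le_bot_iff.1 (h0 ▸ le_top)
    have hv := T.val t ht
    have hne2 : T.σ (K.u m) (T.c t).code ≠ ⊥ := by
      intro h0
      rw [h0] at hv
      exact T.ne t ht (le_bot_iff.1 hv)
    obtain ⟨c, -, hc, h1⟩ := K.k1 T.A ⊤ T.σ T.map hne T.kp m _ hne2
    have hcc := hUA.2.1 _ _ hc
    subst hcc
    have h2 : t ≤ T.σ (K.x m) (T.c t).x.val := (hv.trans h1).trans inf_le_left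
    have h3 := T.com t ht (K.x m) (K.xG m) (T.c t).x.val
    have h4 : mkEl (T.c t).v.A.B (T.c t).x.val = (T.c t).x := by
      unfold mkEl
      rw [dif_pos (T.c t).x.mem]
    rw [h4] at h3
    exact (le_inf h2 le_rfl).trans h3

/-- the morphisms between the conditions of two stages -/
theorem link (hMB : T_MB) (hUA : T_UA) {K : Kn κ i N' N w p' p G' u0} {T : ∀ n, Stg K n}
    {f : ∀ n, BMor (T n).A (T (n + 1)).A} {q : ℕ → V}
    (hT : ∀ n, StgLe (T n) (T (n + 1)) (f n) (q n)) {Y : BA} {k : ∀ n, BMor (T n).A Y}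
    (hY : Lim (fun n => (T n).A) f Y k) {n : ℕ} {s : El (T n).A.B} (hs : s ∈ (T n).S) {m : ℕ}
    (hnm : n ≤ m) : ∀ t ∈ (T m).S, k n s ⊓ k m t ≠ ⊥ → k m t ≤ k n s ∧
      ∃ k' : BMor ((T n).c s).v.A ((T m).c t).v.A, IsTr ((T m).c t) ((T n).c s) k' ∧
        ∀ y, k n ((T n).ι s y) ⊓ k m t = k m ((T m).ι t (k' y)) := by
  induction m, hnm using Nat.le_induction with
  | base =>
    intro t ht hne
    have hst : s = t := by
      by_contra h
      apply hne
      rw [← inf_eq, (T n).dis s hs t ht h, bot_eq hMB]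
    subst hst
    refine ⟨le_rfl, _, hUA.2.2.1 _, fun y => ?_⟩
    show _ = k n ((T n).ι s (y ⊓ ((T n).c s).x))
    rw [inf_eq, inf_eq, iota_x hMB hUA (T n) hs]
  | succ m hm ih =>
    intro t' ht' hne
    have hcov : (⊤ : El Y.B) = ⨆ t ∈ (T m).S, k m t := by
      have h1 := (k m).sup (T m).S
      rw [(T m).sup, sSup_image] at h1
      exact (hY.kunit m).symm.trans h1
    have hex : ∃ t ∈ (T m).S, k n s ⊓ k (m + 1) t' ⊓ k m t ≠ ⊥ := by
      by_contra hcon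
      push Not at hcon
      apply hne
      rw [← inf_top_eq (k n s ⊓ k (m + 1) t'), hcov, inf_iSup₂_eq]
      exact le_bot_iff.1 (iSup₂_le fun t ht => (hcon t ht).le)
    obtain ⟨t, ht, h1⟩ := hex
    have h2 : k n s ⊓ k m t ≠ ⊥ := by
      intro h0
      apply h1
      refine le_bot_iff.1 (le_trans ?_ h0.le)
      exact le_inf (inf_le_left.trans inf_le_left) inf_le_right
    obtain ⟨h3, k', hk', h4⟩ := ih t ht h2
    have hcm : ∀ x, k (m + 1) (f m x) = k m x := hY.comm m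
    have h5 : f m t ⊓ t' ≠ ⊥ := by
      intro h0
      apply h1
      have h6 : k (m + 1) t' ⊓ k m t = ⊥ := by
        rw [← hcm, inf_comm, ← inf_eq, h0, bot_eq hMB]
      rw [inf_assoc, h6, inf_bot_eq]
    obtain ⟨h6, k'', hk'', h7⟩ := (hT m).link t ht t' ht' h5
    have h8 : k (m + 1) t' ≤ k m t := by
      rw [← hcm]
      exact mono hMB _ h6
    refine ⟨h8.trans h3, k'.comp k'', hUA.2.2.2.1 _ _ _ _ _ hk' hk'', fun y => ?_⟩
    calc k n ((T n).ι s y) ⊓ k (m + 1) t' = (k n ((T n).ι s y) ⊓ k m t) ⊓ k (m + 1) t' := by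
          rw [inf_assoc, inf_eq_right.2 h8]
      _ = k (m + 1) (f m ((T m).ι t (k' y)) ⊓ t') := by
          rw [h4, ← hcm, inf_eq]
      _ = _ := by rw [h7]; rfl

/-- the generators below the elements of the partitions -/
theorem claim (hMB : T_MB) (hUA : T_UA) {K : Kn κ i N' N w p' p G' u0} {T : ∀ n, Stg K n}
    {f : ∀ n, BMor (T n).A (T (n + 1)).A} {q : ℕ → V}
    (hT : ∀ n, StgLe (T n) (T (n + 1)) (f n) (q n)) {Y : BA} {k : ∀ n, BMor (T n).A Y}
    (hY : Lim (fun n => (T n).A) f Y k) {n : ℕ} {s : El (T n).A.B} (hs : s ∈ (T n).S)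
    {ξ : Ordinal.{0}} (hξ : ξ < ((T n).c s).v.α) {m : ℕ} {t : El (T m).A.B} (ht : t ∈ (T m).S)
    (hξt : ξ < ((T m).c t).v.α) :
    k m ((T m).ι t (((T m).c t).v.b ξ)) ⊓ k n s ≤ k n ((T n).ι s (((T n).c s).v.b ξ)) := by
  have hle : ∀ {m : ℕ} {t : El (T m).A.B}, t ∈ (T m).S → ∀ y, (T m).ι t y ≤ t := by
    intro m t ht y
    exact (mono hMB _ le_top).trans_eq ((T m).top t ht)
  by_cases h0 : k n s ⊓ k m t = ⊥
  · refine le_trans ?_ bot_le
    rw [← h0, inf_comm]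
    exact inf_le_inf le_rfl (mono hMB _ (hle ht _))
  rcases le_total n m with hnm | hnm
  · obtain ⟨h1, k', hk', h2⟩ := link hMB hUA hT hY hs hnm t ht h0
    have h3 := hk'.gens ξ hξ
    have h4 : (T m).ι t (((T m).c t).v.b ξ) = (T m).ι t (k' (((T n).c s).v.b ξ)) := by
      rw [h3, inf_eq, iota_x hMB hUA (T m) ht]
      exact (inf_eq_left.2 (hle ht _)).symm
    rw [h4, ← h2, inf_assoc]
    exact inf_le_left
  · rw [inf_comm] at h0
    obtain ⟨h1, k', hk', h2⟩ := link hMB hUA hT hY ht hnm s hs h0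
    rw [h2, hk'.gens ξ hξt]
    exact mono hMB _ (mono hMB _ inf_le_left)

end

end ULx

open ULx in
theorem ul (hUA : T_UA) (hUV : T_UV) (hMB : T_MB) (hG1 : T_G1) (hPB : T_PB) : T_UL := by
  classical
  intro κ Z i hκ N' N w p' p G' u0 K T f q hT Y k hY hYκ hk
  obtain ⟨-, -, -, -, -, -, -, u8, u9, u10, u11, u12⟩ := hUV κ hκ
  have hακ : ∀ n, ∀ s ∈ (T n).S, ((T n).c s).v.α < κ := fun n s hs =>
    ((u9 _).1 ((u10 _).1 ((T n).cκ s hs))).2
  have h1 : ∀ n, ∃ α < κ, ∀ s ∈ (T n).S, ((T n).c s).v.α ≤ α := by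
    intro n
    obtain ⟨α, hα, h⟩ := u11 {s : El (T n).A.B // s ∈ (T n).S} (fun s => s.1.val)
      (fun s => ((T n).c s.1).v.α) (fun s t h => Subtype.ext (El.ext h)) (T n).A.B (T n).rank
      (fun s => s.1.mem) (fun s => hακ n s.1 s.2)
    exact ⟨α, hα, fun s hs => h ⟨s, hs⟩⟩
  choose a ha ha2 using h1
  obtain ⟨α1, hα1, -, h2⟩ := u8 (fun n => (a n).toZFSet) (fun n => toZFSet_mem.2 (ha n))
  have hle1 : ∀ n, ∀ s ∈ (T n).S, ((T n).c s).v.α ≤ α1 := fun n s hs =>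
    (ha2 n s hs).trans (toZFSet_mem.1 (h2 n)).le
  have hYne : Y.B ≠ ∅ := by
    intro h
    exact ZFSet.notMem_empty _ (h ▸ Y.cba.bot : (∅ : V) ∈ (∅ : V))
  obtain ⟨α2, hα2, e, -, he2⟩ := u12 Y.B hYκ hYne
  have hα : α1 + α2 < κ := add_lt hκ hUV α1 hα1 α2 hα2
  let b : Ordinal.{0} → El Y.B := fun ξ =>
    if ξ < α1 then ⨆ (m : ℕ) (t : El (T m).A.B) (_ : t ∈ (T m).S)
      (_ : ξ < ((T m).c t).v.α), k m ((T m).ι t (((T m).c t).v.b ξ))
    else if ξ < α1 + α2 then mkEl Y.B (e (ξ - α1)) else ⊥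
  have hb1 : ∀ ξ, ξ < α1 → b ξ = ⨆ (m : ℕ) (t : El (T m).A.B) (_ : t ∈ (T m).S)
      (_ : ξ < ((T m).c t).v.α), k m ((T m).ι t (((T m).c t).v.b ξ)) := fun ξ h => if_pos h
  have hb2 : ∀ ξ, ξ < α2 → b (α1 + ξ) = mkEl Y.B (e ξ) := by
    intro ξ h
    show (if _ then _ else if _ then _ else _) = _
    rw [if_neg (not_lt.2 (le_add_of_nonneg_right (zero_le))), if_pos (by gcongr),
      Ordinal.add_sub_cancel]
  have hout : ∀ ξ, α1 + α2 ≤ ξ → b ξ = ⊥ := by
    intro ξ h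
    show (if _ then _ else if _ then _ else _) = _
    rw [if_neg (not_lt.2 (le_trans (le_add_of_nonneg_right (zero_le)) h)),
      if_neg (not_lt.2 h)]
  have hgood : Good (bas Y) := by
    have h3 : bas Y = (bas (T 0).A).comp (k 0) := by
      apply bmor_ext
      intro x
      show Y.g x = k 0 ((T 0).A.g x)
      have h4 := (k 0).base x
      have h5 : (k 0).f ⊤ = ⊤ := hY.kunit 0
      rw [h5, inf_top_eq] at h4
      exact h4.symm
    rw [h3]
    exact hG1 _ _ _ _ _ (T 0).good (hk 0)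
  have hgen : ∀ (C : BA) (h k : BMor Y C), h ⊤ = k ⊤ → (∀ ξ, h (b ξ) = k (b ξ)) →
      ∀ x, h x = k x := by
    intro C h k' _ h3 x
    obtain ⟨ξ, hξ, h4⟩ := he2 x.val x.mem
    have h5 : b (α1 + ξ) = x := by
      rw [hb2 ξ hξ, h4]
      unfold mkEl
      rw [dif_pos x.mem]
    rw [← h5]
    exact h3 _
  refine ⟨α1 + α2, b, hout, hgood, hgen, (u9 _).2 ⟨hYκ, hα⟩, ?_⟩
  intro n s hs hne
  have htop := (T n).top s hs
  refine ⟨?_, ?_, ?_, ?_, ?_⟩
  · exact (hle1 n s hs).trans (le_add_of_nonneg_right (zero_le))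
  · refine hG1 _ _ _ _ _ ?_ (hk n)
    refine (hPB _ _ _ ?_).1
    intro z hz
    rw [htop] at hz
    exact (T n).onto s hs z hz
  · show k n ((T n).ι s ⊤) = k n s
    rw [htop]
  · intro ξ hξ
    show k n ((T n).ι s (((T n).c s).v.b ξ)) = b ξ ⊓ k n s
    rw [hb1 ξ (hξ.trans_le (hle1 n s hs))]
    refine le_antisymm (le_inf ?_ ?_) ?_
    · exact le_iSup_of_le n (le_iSup_of_le s (le_iSup_of_le hs (le_iSup_of_le hξ le_rfl)))
    · exact mono hMB _ ((mono hMB _ le_top).trans_eq htop)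
    · simp only [iSup_inf_eq]
      refine iSup_le fun m => iSup_le fun t => iSup_le fun ht => iSup_le fun hξt => ?_
      exact claim hMB hUA hT hY hs hξ ht hξt
  · show k n ((T n).ι s ((T n).c s).x) = k n s
    rw [iota_x hMB hUA (T n) hs]

end SF
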